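import Pool.Agent.helper80.HM.SpecA

set_option autoImplicit false

namespace Pool.Agent.HM

open Finset Pool.Agent.helper33.Mod

/-- KSV -/
theorem KSV (hKSC : KSC_stmt) : KSV_stmt := by
  intro M k V T v hTV hvV hvT
  have hins : insert v T ⊆ V := by
    intro x hx
    rcases mem_insert.1 hx with h | h
    · rw [h]
      exact hvV
    · exact hTV h
  have hcard : (insert v T).card = T.card + 1 := card_insert_of_notMem hvT
  have hle : (insert v T).card ≤ V.card := card_le_card hins
  rw [hcard] at hle
  by_cases hk : k ≤ T.card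
  · have h0 : KS k V (insert v T) = ∅ := by
      rw [KS, filter_eq_empty_iff]
      intro Q hQ hs
      have h1 := (mem_powersetCard.1 hQ).2
      have h2 := card_le_card hs
      rw [hcard, h1] at h2
      omega
    rw [h0]
    simp
  · push Not at hk
    have e1 := hKSC (k := k) V T hTV hk.le
    have e2 := hKSC (k := k) V (insert v T) hins (by rw [hcard]; omega)
    rw [e1, e2, hcard]
    obtain ⟨n, hn⟩ : ∃ n, V.card - T.card = n + 1 := ⟨V.card - T.card - 1, by omega⟩
    obtain ⟨j, hj⟩ : ∃ j, k - T.card = j + 1 := ⟨k - T.card - 1, by omega⟩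
    have h1 : V.card - (T.card + 1) = n := by omega
    have h2 : k - (T.card + 1) = j := by omega
    rw [hn, hj, h1, h2]
    have h3 := Nat.add_one_mul_choose_eq n j
    calc n.choose j * (n + 1) = (n + 1).choose (j + 1) * (j + 1) := by rw [mul_comm, h3]
      _ ≤ (n + 1).choose (j + 1) * k := Nat.mul_le_mul_left _ (by omega)
      _ = k * (n + 1).choose (j + 1) := mul_comm _ _

end Pool.Agent.HM
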