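import Pool.Agent.helper80.HM.SpecB

set_option autoImplicit false

namespace Pool.Agent.HM

open Finset Pool.Agent.helper33.Mod

/-- LAL -/
theorem LAL (hCLO : CLO_stmt) (hEET : EET_stmt) (hKEY : KEY_stmt) : LAL_stmt := by
  intro M a t S k c σ l L N g lv d V β F i r J φ hPar hRun hdt hApp hV hra hm hlv
  obtain ⟨_, _, hc0, _, _, _, _, _, _, _, hE, _, _⟩ := hEET hPar
  have hLc : L ^ 2 ≤ c := by
    have := hPar.hc
    omega
  obtain ⟨B, hB⟩ := hCLO (N := N) (fun h : Fin M → Fin c => g i (orI (gV V h) β) = true) hc0 hLc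
  refine ⟨B, ⟨⟨fun h => Acc B h ∧ ¬ (g i (orI (gV V h) β) = true), hB.neg, ?_⟩, ?_⟩⟩
  · intro h _ hacc hP
    rw [Function.update_self] at hacc
    by_contra hne
    apply hP
    obtain ⟨K, hK, _, hinj⟩ := hacc
    exact ⟨⟨K, hK, hinj⟩, hne⟩
  · intro T hT hTc
    refine ⟨flt (KS k V T) fun Q => g i (orI (gQ Q) β) = true ∧ ¬ AccQ l B Q, ?_, ?_⟩
    · have h1 := hKEY d J φ (g i) V T β B hPar hRun hdt hApp hra hm (hRun.mono i) hlv hV hT hTc hB
      have h2 := hE d hdt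
      calc (S : ℝ) * (flt (KS k V T) fun Q => g i (orI (gQ Q) β) = true ∧ ¬ AccQ l B Q).card
          ≤ (S : ℝ) * (2 * tau t σ d * (KS k V T).card) :=
            mul_le_mul_of_nonneg_left h1 (Nat.cast_nonneg _)
        _ = ((S : ℝ) * (2 * tau t σ d)) * (KS k V T).card := by ring
        _ ≤ tau t σ (d + 1) * (KS k V T).card := mul_le_mul_of_nonneg_right h2 (Nat.cast_nonneg _)
    · intro Q hQ _ hgQ hX
      rw [Function.update_self]
      by_contra hne
      exact hX (mem_flt.2 ⟨hQ, hgQ, hne⟩)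

end Pool.Agent.HM
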